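import Pool.Agent.H92.Redshift.Final

/-!
# Redshift for the K-theory of algebras over connective Morava E-theory: square-zero extensions

The question asks whether, for every connected semi-finite commutative `e_n`-algebra `B` with a map to a Galois extension
of `E_n[1/p]` and every `v_(n+1)` self-map `v : Σ^d F ⟶ F`, (1) `v_*` is bijective on `F_* K(B)` in large degrees and (2)
`K(B) ⟶ L^f_(n+1) K(B)` is a `p`-adic equivalence in large degrees. We prove that (1) and (2) fail, for all `p` and
`n ≥ 1` and all `(F, v)` with `F ≠ 0` and `d > 0`, for the trivial square-zero extensions `B = A ⊕ Σ ^ i A`, `i ≥ 0`, of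
the connective algebras `A` of the question, for instance for `B = e_n ⊕ Σ ^ i e_n`; for `i ≥ 1` its ring `π_0` is that of
`e_n`. `Theory`, `Allowed`, `First`, `Second`, `Q1` describe the question, `Facts` and `RelTC` the published theorems which
are used, see the file `Pool/Agent/H92/Redshift/Defs.lean`. The theorem holds in every setting with these properties.

Proof. `K(B)` and `TC(B)` have the same terms relative to `A` (Dundas, Goodwillie, McCarthy). The relative term of `TC(B)` is
a product over the positive integers `a` prime to `p`. For `a` odd its factor is, in degrees below `p a (i + 1)`, the spectrum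
`Σ ^ (a (i + 1)) THH(A)`: the weights `a p ^ k`, `k ≥ 1`, contribute only in larger degrees. So the homology `F_*` of the factor
begins in the degree `t + a (i + 1)`, where `t` is the first degree in which `F_* THH(A)` is not zero, and multiplication by
`v`, of degree `d > 0`, does not reach this degree. This happens for infinitely many `a`, that is, in arbitrarily large
degrees. Moreover (2) implies (1).
-/

namespace Pool.Agent.Results.MP_d175a7_gt.SquareZeroExtensions

open CategoryTheory CategoryTheory.Limits CategoryTheory.Pretriangulated Pool.Agent.H92.Redshift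

theorem result (T : Theory) (hT : T.Facts) :
    -- the algebras `B` are among those of the question
    T.Allowed T.e ∧
    (∀ (A : T.Alg) (i : ℕ), T.Connective A → T.Allowed A → T.Allowed (T.sq i A) ∧ T.Connective (T.sq i A)) ∧
    -- the degrees in which `v_*` is not surjective
    (∀ A : T.Alg, T.Connective A → T.NonUnit A → ∀ D : T.Sp.Obj, T.Torsion D →
      ∃ t a₀ : ℤ, ∀ (i : ℕ) (d : ℤ) (w : D⟦d⟧ ⟶ D), 0 < d → T.Gaps A i t a₀ w) ∧
    -- both assertions of the question fail
    (∀ A : T.Alg, T.Connective A → T.NonUnit A → ∀ i : ℕ, T.Fails (T.sq i A)) ∧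
    -- also for an algebra `B` with the ring `π_0` of `e_n`
    (∃ B : T.Alg, T.Allowed B ∧ T.Fails B ∧ Nonempty (T.pi0.obj B ≅ T.pi0.obj T.e)) ∧
    ¬ T.Q1 := by
  have h3 : ∀ A : T.Alg, T.Connective A → T.NonUnit A → ∀ D : T.Sp.Obj, T.Torsion D →
      ∃ t a₀ : ℤ, ∀ (i : ℕ) (d : ℤ) (w : D⟦d⟧ ⟶ D), 0 < d → T.Gaps A i t a₀ w := by
    intro A hA hp D hD
    obtain ⟨N, hN⟩ := hD.pow
    obtain ⟨b, hb⟩ := hD.finite.bounded
    obtain ⟨t, ⟨f₀, hf₀⟩, ht⟩ := Theory.exists_bottom hT hA hp hD.finite hD.ne
    refine ⟨t, t - b, fun i d w hd a ha hodd hpa => ?_⟩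
    obtain ⟨s, V, hV, ⟨Z⟩⟩ := hT.sqZero i A hA
    exact Theory.not_surjective hT s V hV Z hb hN f₀ hf₀ ht hd w ⟨a, hodd.pos, hpa⟩ hodd ha
  have h4 : ∀ A : T.Alg, T.Connective A → T.NonUnit A → ∀ i : ℕ,
      T.Fails (T.sq i A) := by
    intro A hA hp i
    have h41 : ∀ (D : T.Sp.Obj) (d : ℤ) (w : D⟦d⟧ ⟶ D), T.Torsion D → 0 < d → ¬ T.First (T.sq i A) D d w := by
      intro D d w hD hd ⟨J, hJ⟩
      obtain ⟨t, a₀, h⟩ := h3 A hA hp D hD
      obtain ⟨a, ha, hodd, hpa⟩ := Theory.exists_odd T.p hT.prime (max a₀ (J - t))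
      refine h i d w hd a (le_trans (le_max_left _ _) ha) hodd hpa (hJ _ ?_).2
      have h5 : J - t ≤ a := le_trans (le_max_right _ _) ha
      have h6 : (a : ℤ) * 1 ≤ a * (i + 1) := by
        gcongr
        have : (0 : ℤ) ≤ i := by positivity
        linarith
      linarith
    refine ⟨h41, fun hsec => ?_⟩
    obtain ⟨D, d, w, hw, hd, hD⟩ := hT.periodicity
    obtain ⟨N, hN⟩ := hD.pow
    exact h41 D d w hD hd (Theory.first_of_second hT hsec hw hN)
  have h5 : ∀ (A : T.Alg) (i : ℕ), T.Connective A → T.Allowed A →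
      T.Allowed (T.sq i A) ∧ T.Connective (T.sq i A) := by
    intro A i hc hA
    obtain ⟨s, -⟩ := hT.sqZero i A hc
    exact ⟨Theory.allowed_sq hA s, Theory.connective_sq hc s⟩
  have h6 := Theory.allowed_e hT
  have h7 := h4 T.e hT.connective hT.nonUnit
  have h8 := fun i : ℕ => (h5 T.e i hT.connective h6).1
  refine ⟨h6, h5, h3, h4, ⟨T.sq 1 T.e, h8 1, h7 1, ?_⟩, fun hQ => ?_⟩
  · obtain ⟨s, -⟩ := hT.sqZero 1 T.e hT.connective
    exact s.pi0_pos one_pos
  · obtain ⟨D, d, w, hw, -⟩ := hT.periodicity
    exact (h7 0).second (hQ _ (h8 0) D d w hw).2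

end Pool.Agent.Results.MP_d175a7_gt.SquareZeroExtensions
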